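import Mathlib
import Pool.Agent.Helper4.ETBasis

set_option autoImplicit false

namespace Pool.Agent.Helper3.Old.LimsupAtLeastEight

/-- Let `A` be a set of natural numbers such that, for all large `N`, at most `N / 300` of the
numbers `n < N` are not of the form `a + b` with `a, b ∈ A` (for instance any asymptotic additive
basis of order two). Then for infinitely many `n` the number of ordered pairs `(a, b) ∈ A × A`
with `a + b = n` is at least `8`. -/
theorem result (A : Set ℕ)
    (hA : ∃ N₀ : ℕ, ∀ N ≥ N₀,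
      300 * ({n : ℕ | n < N ∧ ∀ a ∈ A, ∀ b ∈ A, a + b ≠ n} : Set ℕ).ncard ≤ N) :
    ∀ m : ℕ, ∃ n ≥ m,
      8 ≤ ({p : ℕ × ℕ | p.1 ∈ A ∧ p.2 ∈ A ∧ p.1 + p.2 = n} : Set (ℕ × ℕ)).ncard := by
  intro m
  exact Pool.Agent.Helper4.ET.basis_main A hA m

end Pool.Agent.Helper3.Old.LimsupAtLeastEight
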